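import Mathlib

open Filter Topology BoundedContinuousFunction

namespace Pool.Agent.Results.MP_5127fd_an.SupImpliesNormal

universe u

variable {X : Type u} [NormedAddCommGroup X] [NormedSpace ℝ X]

/-- `C` is a closed cone of the normed space `X` with `C ∩ (-C) = {0}`. -/
structure IsClosedCone (C : Set X) : Prop where
  closed : IsClosed C
  zero : (0 : X) ∈ C
  add : ∀ x ∈ C, ∀ y ∈ C, x + y ∈ C
  smul : ∀ x ∈ C, ∀ t : ℝ, 0 ≤ t → t • x ∈ C
  pointed : ∀ x, x ∈ C → -x ∈ C → x = 0

/-- The order of the cone `C`: `x ≤ y` if `y - x ∈ C`. -/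
def Le (C : Set X) (x y : X) : Prop := y - x ∈ C

/-- `s` is the least upper bound of the sequence `f`. -/
def IsSup (C : Set X) (f : ℕ → X) (s : X) : Prop :=
  (∀ n, Le C (f n) s) ∧ ∀ b, (∀ n, Le C (f n) b) → Le C s b

/-- Property (S): every increasing order bounded sequence has a supremum. -/
def PropS (C : Set X) : Prop :=
  ∀ f : ℕ → X, (∀ n, Le C (f n) (f (n + 1))) → (∃ a b, ∀ n, Le C a (f n) ∧ Le C (f n) b) →
    ∃ s, IsSup C f s

/-- The cone is normal. -/
def IsNormal (C : Set X) : Prop :=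
  ∃ c : ℝ, 0 < c ∧ ∀ x y, Le C 0 x → Le C x y → ‖x‖ ≤ c * ‖y‖

variable {C : Set X}

/-- partial sums -/
noncomputable def S (z : ℕ → X) (b : ℕ →ᵇ ℝ) (N : ℕ) : X :=
  ∑ n ∈ Finset.range N, (b n * (1 / 2) ^ n) • z n

/-- `x` is the limit of the partial sums, with the rate `M 2⁻ᴺ`, for the order unit norm of `u` -/
def R (C : Set X) (u : X) (z : ℕ → X) (b : ℕ →ᵇ ℝ) (M : ℝ) (x : X) : Prop :=
  ∀ᶠ N in atTop, (x - S z b N) + (M * (1 / 2) ^ N) • u ∈ C ∧
    (M * (1 / 2) ^ N) • u - (x - S z b N) ∈ C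

theorem zero_of (hC : IsClosedCone C) (u d : X) (M : ℝ)
    (h : ∀ᶠ N : ℕ in atTop, d + (M * (1 / 2) ^ N) • u ∈ C ∧ (M * (1 / 2) ^ N) • u - d ∈ C) :
    d = 0 := by
  have h0 : Tendsto (fun N : ℕ => (M * (1 / 2 : ℝ) ^ N) • u) atTop (𝓝 0) := by
    have h1 : Tendsto (fun N : ℕ => M * (1 / 2 : ℝ) ^ N) atTop (𝓝 (M * 0)) :=
      (tendsto_pow_atTop_nhds_zero_of_lt_one (by norm_num) (by norm_num)).const_mul M
    rw [mul_zero] at h1
    have h2 := h1.smul_const u
    rwa [zero_smul] at h2
  apply hC.pointed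
  · have h1 : Tendsto (fun N : ℕ => d + (M * (1 / 2 : ℝ) ^ N) • u) atTop (𝓝 (d + 0)) :=
      h0.const_add d
    rw [add_zero] at h1
    exact hC.closed.mem_of_tendsto h1 (h.mono fun N hN => hN.1)
  · have h1 : Tendsto (fun N : ℕ => (M * (1 / 2 : ℝ) ^ N) • u - d) atTop (𝓝 (0 - d)) :=
      h0.sub_const d
    rw [zero_sub] at h1
    exact hC.closed.mem_of_tendsto h1 (h.mono fun N hN => hN.2)

theorem R_add (hC : IsClosedCone C) {u : X} {z : ℕ → X} {b b' : ℕ →ᵇ ℝ} {M M' : ℝ} {x x' : X}
    (h : R C u z b M x) (h' : R C u z b' M' x') : R C u z (b + b') (M + M') (x + x') := by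
  filter_upwards [h, h'] with N h1 h2
  have e : S z (b + b') N = S z b N + S z b' N := by
    simp only [S, ← Finset.sum_add_distrib, ← add_smul]
    refine Finset.sum_congr rfl fun n _ => ?_
    congr 1
    change (b n + b' n) * _ = _
    ring
  rw [e]
  constructor
  · have := hC.add _ h1.1 _ h2.1
    convert this using 1
    module
  · have := hC.add _ h1.2 _ h2.2
    convert this using 1
    module

theorem R_smul (hC : IsClosedCone C) {u : X} {z : ℕ → X} {b : ℕ →ᵇ ℝ} {M : ℝ} {x : X} (c : ℝ)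
    (h : R C u z b M x) : R C u z (c • b) (|c| * M) (c • x) := by
  filter_upwards [h] with N h1
  have e : S z (c • b) N = c • S z b N := by
    simp only [S, Finset.smul_sum, smul_smul]
    refine Finset.sum_congr rfl fun n _ => ?_
    congr 1
    change (c * b n) * _ = _
    ring
  rw [e]
  rcases le_total 0 c with hc | hc
  · rw [abs_of_nonneg hc]
    constructor
    · have := hC.smul _ h1.1 c hc
      convert this using 1
      module
    · have := hC.smul _ h1.2 c hc
      convert this using 1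
      module
  · rw [abs_of_nonpos hc]
    constructor
    · have := hC.smul _ h1.2 (-c) (by linarith)
      convert this using 1
      module
    · have := hC.smul _ h1.1 (-c) (by linarith)
      convert this using 1
      module

theorem R_unique (hC : IsClosedCone C) {u : X} {z : ℕ → X} {b : ℕ →ᵇ ℝ} {M M' : ℝ} {x x' : X}
    (h : R C u z b M x) (h' : R C u z b M' x') : x = x' := by
  rw [← sub_eq_zero]
  apply zero_of hC u (x - x') (M + M')
  filter_upwards [h, h'] with N h1 h2
  constructor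
  · have := hC.add _ h1.1 _ h2.2
    convert this using 1
    module
  · have := hC.add _ h1.2 _ h2.1
    convert this using 1
    module

theorem step_mem (hC : IsClosedCone C) {u z : X} (hz : z ∈ C) (huz : u - z ∈ C) {B c : ℝ}
    (hc : |c| ≤ B) : B • u + c • z ∈ C := by
  have hu : u ∈ C := by
    have := hC.add _ huz _ hz
    rwa [sub_add_cancel] at this
  have h1 := hC.smul _ hu (B - |c|) (by linarith)
  have h2 := hC.smul _ huz |c| (abs_nonneg c)
  have h3 := hC.smul _ hz (|c| + c) (by linarith [neg_abs_le c])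
  have := hC.add _ (hC.add _ h1 _ h2) _ h3
  convert this using 1
  module

theorem exists_R (hC : IsClosedCone C) (hS : PropS C) {u : X} {z : ℕ → X} (hz : ∀ n, z n ∈ C)
    (huz : ∀ n, u - z n ∈ C) (b : ℕ →ᵇ ℝ) : ∃ x, ∀ N,
      (x - S z b N) + (2 * ‖b‖ * (1 / 2) ^ N) • u ∈ C ∧
        (2 * ‖b‖ * (1 / 2) ^ N) • u - (x - S z b N) ∈ C := by
  have hb : ∀ n, |b n| ≤ ‖b‖ := fun n => b.norm_coe_le_norm n
  let f : ℕ → X := fun N => S z b N - (2 * ‖b‖ * (1 / 2) ^ N) • u
  let g : ℕ → X := fun N => S z b N + (2 * ‖b‖ * (1 / 2) ^ N) • u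
  have hf : ∀ n, Le C (f n) (f (n + 1)) := by
    intro n
    have h1 := hC.smul _ (step_mem hC (hz n) (huz n) (hb n)) ((1 / 2) ^ n) (by positivity)
    change f (n + 1) - f n ∈ C
    convert h1 using 1
    simp only [f, S, Finset.sum_range_succ, pow_succ]
    module
  have hg : ∀ n, Le C (g (n + 1)) (g n) := by
    intro n
    have h1 := hC.smul _ (step_mem (B := ‖b‖) (c := -b n) hC (hz n) (huz n) (by rw [abs_neg]; exact hb n))
      ((1 / 2) ^ n) (by positivity)
    change g n - g (n + 1) ∈ C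
    convert h1 using 1
    simp only [g, S, Finset.sum_range_succ, pow_succ]
    module
  have htrans : ∀ x y w, Le C x y → Le C y w → Le C x w := by
    intro x y w h1 h2
    have := hC.add _ h1 _ h2
    change w - x ∈ C
    convert this using 1
    module
  have hrefl : ∀ x, Le C x x := by
    intro x
    change x - x ∈ C
    rw [sub_self]
    exact hC.zero
  have hfm : ∀ m n, m ≤ n → Le C (f m) (f n) := by
    intro m n hmn
    induction n, hmn using Nat.le_induction with
    | base => exact hrefl _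
    | succ n _ ih => exact htrans _ _ _ ih (hf n)
  have hgm : ∀ m n, m ≤ n → Le C (g n) (g m) := by
    intro m n hmn
    induction n, hmn using Nat.le_induction with
    | base => exact hrefl _
    | succ n _ ih => exact htrans _ _ _ (hg n) ih
  have hu : u ∈ C := by
    have := hC.add _ (huz 0) _ (hz 0)
    rwa [sub_add_cancel] at this
  have hfg : ∀ n, Le C (f n) (g n) := by
    intro n
    have h1 := hC.smul _ hu (2 * (2 * ‖b‖ * (1 / 2) ^ n)) (by positivity)
    change g n - f n ∈ C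
    convert h1 using 1
    simp only [g, f]
    module
  have hfg' : ∀ m n, Le C (f m) (g n) := by
    intro m n
    exact htrans _ _ _ (hfm m (max m n) (le_max_left _ _))
      (htrans _ _ _ (hfg _) (hgm n (max m n) (le_max_right _ _)))
  obtain ⟨x, hx1, hx2⟩ := hS f hf ⟨f 0, g 0, fun n => ⟨hfm 0 n (Nat.zero_le n), hfg' n 0⟩⟩
  refine ⟨x, fun N => ⟨?_, ?_⟩⟩
  · have h1 := hx1 N
    change x - f N ∈ C at h1
    convert h1 using 1
    simp only [f]
    module
  · have h1 := hx2 (g N) fun n => hfg' n N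
    change g N - x ∈ C at h1
    convert h1 using 1
    simp only [g]
    module

theorem bounded_of [CompleteSpace X] (hC : IsClosedCone C) (hS : PropS C) {u : X} {z : ℕ → X}
    (hz : ∀ n, z n ∈ C) (huz : ∀ n, u - z n ∈ C) : ∃ K : ℝ, ∀ n, (1 / 2 : ℝ) ^ n * ‖z n‖ ≤ K := by
  choose T hT' using exists_R hC hS hz huz
  have hT : ∀ b, R C u z b (2 * ‖b‖) (T b) := fun b => Eventually.of_forall (hT' b)
  let L : (ℕ →ᵇ ℝ) →ₗ[ℝ] X :=
    { toFun := T
      map_add' := fun b b' => R_unique hC (hT (b + b')) (R_add hC (hT b) (hT b'))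
      map_smul' := fun c b => R_unique hC (hT (c • b)) (R_smul hC c (hT b)) }
  have hL : Continuous L := by
    apply LinearMap.continuous_of_seq_closed_graph
    intro b b0 y hb hy
    refine R_unique hC (M := 2 * ‖b0‖) (Eventually.of_forall fun N => ?_) (hT b0)
    have hS' : Tendsto (fun k => S z (b k) N) atTop (𝓝 (S z b0 N)) := by
      refine tendsto_finsetSum _ fun n _ => ?_
      refine Tendsto.smul_const (Tendsto.mul_const _ ?_) _
      exact ((continuous_eval_const n : Continuous fun f : ℕ →ᵇ ℝ => f n).tendsto b0).comp hb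
    have hu : Tendsto (fun k => (2 * ‖b k‖ * (1 / 2) ^ N) • u) atTop
        (𝓝 ((2 * ‖b0‖ * (1 / 2) ^ N) • u)) :=
      ((hb.norm.const_mul 2).mul_const _).smul_const u
    exact ⟨hC.closed.mem_of_tendsto ((hy.sub hS').add hu)
        (Eventually.of_forall fun k => (hT' (b k) N).1),
      hC.closed.mem_of_tendsto (hu.sub (hy.sub hS'))
        (Eventually.of_forall fun k => (hT' (b k) N).2)⟩
  let L' : (ℕ →ᵇ ℝ) →L[ℝ] X := ⟨L, hL⟩
  refine ⟨‖L'‖, fun n => ?_⟩
  let e : ℕ →ᵇ ℝ := BoundedContinuousFunction.ofNormedAddCommGroup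
    (fun k => if k = n then (1 : ℝ) else 0) continuous_of_discreteTopology 1 (by
      intro k
      split_ifs <;> simp)
  have he : ‖e‖ ≤ 1 := BoundedContinuousFunction.norm_ofNormedAddCommGroup_le _ zero_le_one _
  have h1 : L' e = ((1 / 2 : ℝ) ^ n) • z n := by
    refine R_unique hC (hT e) (M' := 0) ?_
    filter_upwards [eventually_gt_atTop n] with N hN
    have h2 : S z e N = ((1 / 2 : ℝ) ^ n) • z n := by
      rw [S, Finset.sum_eq_single n]
      · change ((if n = n then (1 : ℝ) else 0) * _) • _ = _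
        rw [if_pos rfl, one_mul]
      · intro k _ hk
        change ((if k = n then (1 : ℝ) else 0) * _) • _ = _
        rw [if_neg hk, zero_mul, zero_smul]
      · intro h
        exact absurd (Finset.mem_range.mpr hN) h
    rw [h2, sub_self, zero_mul, zero_smul, add_zero, sub_zero]
    exact ⟨hC.zero, hC.zero⟩
  calc (1 / 2 : ℝ) ^ n * ‖z n‖ = ‖L' e‖ := by
        rw [h1, norm_smul, Real.norm_of_nonneg (by positivity)]
    _ ≤ ‖L'‖ * ‖e‖ := L'.le_opNorm e
    _ ≤ ‖L'‖ * 1 := by gcongr
    _ = ‖L'‖ := mul_one _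

/-- For every real Banach space `X` with a closed cone `C`, `C ∩ (-C) = {0}`: if every increasing
order bounded sequence has a supremum, then the cone is normal. -/
theorem result (X : Type u) [NormedAddCommGroup X] [NormedSpace ℝ X] [CompleteSpace X]
    (C : Set X) (hC : IsClosedCone C) (hS : PropS C) : IsNormal C := by
  by_contra hN
  have h1 : ∀ n : ℕ, ∃ x y : X, x ∈ C ∧ y - x ∈ C ∧ ‖y‖ ≤ (1 / 2) ^ n ∧ (8 : ℝ) ^ n ≤ ‖x‖ := by
    intro n
    have hc : (0 : ℝ) < 16 ^ n := by positivity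
    have h2 : ¬ ∀ x y, Le C 0 x → Le C x y → ‖x‖ ≤ 16 ^ n * ‖y‖ := fun h => hN ⟨_, hc, h⟩
    push Not at h2
    obtain ⟨x, y, hx, hxy, hlt⟩ := h2
    have hx' : x ∈ C := by
      change x - 0 ∈ C at hx
      rwa [sub_zero] at hx
    have hy : 0 < ‖y‖ := by
      rw [norm_pos_iff]
      rintro rfl
      change 0 - x ∈ C at hxy
      rw [zero_sub] at hxy
      rw [hC.pointed x hx' hxy] at hlt
      simp at hlt
    have ht : (0 : ℝ) ≤ (1 / 2) ^ n / ‖y‖ := by positivity
    refine ⟨((1 / 2) ^ n / ‖y‖) • x, ((1 / 2) ^ n / ‖y‖) • y, hC.smul _ hx' _ ht, ?_, ?_, ?_⟩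
    · rw [← smul_sub]
      exact hC.smul _ hxy _ ht
    · rw [norm_smul, Real.norm_of_nonneg ht, div_mul_cancel₀ _ hy.ne']
    · rw [norm_smul, Real.norm_of_nonneg ht]
      have h3 : (8 : ℝ) ^ n = (1 / 2) ^ n / ‖y‖ * (16 ^ n * ‖y‖) := by
        have h4 : (1 / 2 : ℝ) ^ n / ‖y‖ * (16 ^ n * ‖y‖) = (1 / 2) ^ n * 16 ^ n := by
          field_simp
        rw [h4, ← mul_pow]
        norm_num
      rw [h3]
      gcongr
  choose z w hz hwz hw hzn using h1
  have hwC : ∀ n, w n ∈ C := by
    intro n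
    have := hC.add _ (hwz n) _ (hz n)
    rwa [sub_add_cancel] at this
  have hsum : Summable w :=
    Summable.of_norm_bounded (summable_geometric_of_lt_one (by norm_num) (by norm_num)) hw
  have hfin : ∀ t : Finset ℕ, ∑ n ∈ t, w n ∈ C := by
    intro t
    induction t using Finset.induction_on with
    | empty => simpa using hC.zero
    | insert a t ha ih =>
      rw [Finset.sum_insert ha]
      exact hC.add _ (hwC a) _ ih
  have huw : ∀ n, (∑' k, w k) - w n ∈ C := by
    intro n
    have h2 := hsum.hasSum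
    refine hC.closed.mem_of_tendsto (h2.sub_const (w n)) ?_
    filter_upwards [eventually_ge_atTop {n}] with t ht
    have h3 : n ∈ t := ht (Finset.mem_singleton_self n)
    rw [← Finset.sum_erase_eq_sub h3]
    exact hfin _
  have huz : ∀ n, (∑' k, w k) - z n ∈ C := by
    intro n
    have := hC.add _ (huw n) _ (hwz n)
    rwa [sub_add_sub_cancel] at this
  obtain ⟨K, hK⟩ := bounded_of hC hS hz huz
  obtain ⟨n, hn⟩ := pow_unbounded_of_one_lt K (show (1 : ℝ) < 4 by norm_num)
  have h5 := hK n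
  have h6 : (4 : ℝ) ^ n = (1 / 2) ^ n * 8 ^ n := by
    rw [← mul_pow]
    norm_num
  have h7 : (1 / 2 : ℝ) ^ n * 8 ^ n ≤ (1 / 2) ^ n * ‖z n‖ := by
    have := hzn n
    gcongr
  linarith

end Pool.Agent.Results.MP_5127fd_an.SupImpliesNormal
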